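import Pool.Agent.W307.RS.Stm

/-!
# The rank over a quadratic extension (project RS, part MQ1)
-/

set_option autoImplicit false

open WeierstrassCurve

namespace Pool.Agent.W612.RS

open Pool.Agent.W307.RS (ShK MQ1)

/-! ### The map on points for a ring homomorphism and a scaling -/

section tmap

variable {F1 F2 : Type} [Field F1] [Field F2] [DecidableEq F1] [DecidableEq F2]
variable (ι : F1 →+* F2) {u : F2} (hu : u ≠ 0) {a b : F1} {a' b' : F2}
  (ha : a' = ι a * u ^ 4) (hb : b' = ι b * u ^ 6)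

include hu ha hb in
omit [DecidableEq F1] [DecidableEq F2] in
lemma eqn_iff (x y : F1) : (ShK a' b').toAffine.Equation (ι x * u ^ 2) (ι y * u ^ 3) ↔
    (ShK a b).toAffine.Equation x y := by
  subst ha hb
  rw [Affine.equation_iff, Affine.equation_iff]
  simp only [ShK, zero_mul, add_zero]
  have e1 : (ι y * u ^ 3) ^ 2 = ι (y ^ 2) * u ^ 6 := by rw [map_pow]; ring
  have e2 : (ι x * u ^ 2) ^ 3 + ι a * u ^ 4 * (ι x * u ^ 2) + ι b * u ^ 6 =
      ι (x ^ 3 + a * x + b) * u ^ 6 := by
    simp only [map_add, map_mul, map_pow]; ring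
  rw [e1, e2]
  constructor
  · intro h
    exact ι.injective (mul_right_cancel₀ (pow_ne_zero 6 hu) h)
  · intro h
    rw [h]

include hu ha hb in
omit [DecidableEq F1] [DecidableEq F2] in
lemma ns_iff (x y : F1) : (ShK a' b').toAffine.Nonsingular (ι x * u ^ 2) (ι y * u ^ 3) ↔
    (ShK a b).toAffine.Nonsingular x y := by
  rw [Affine.nonsingular_iff, Affine.nonsingular_iff, eqn_iff ι hu ha hb]
  subst ha hb
  simp only [ShK, zero_mul, add_zero, mul_zero, sub_zero]
  have e1 : 3 * (ι x * u ^ 2) ^ 2 + ι a * u ^ 4 = ι (3 * x ^ 2 + a) * u ^ 4 := by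
    simp only [map_add, map_mul, map_pow, map_ofNat]; ring
  have e2 : (0 ≠ ι (3 * x ^ 2 + a) * u ^ 4) ↔ (0 ≠ 3 * x ^ 2 + a) := by
    rw [ne_comm, ne_comm (a := (0 : F1)), mul_ne_zero_iff, map_ne_zero]
    exact ⟨fun h => h.1, fun h => ⟨h, pow_ne_zero 4 hu⟩⟩
  have e3 : (ι y * u ^ 3 ≠ -(ι y * u ^ 3)) ↔ (y ≠ -y) := by
    have : -(ι y * u ^ 3) = ι (-y) * u ^ 3 := by rw [map_neg]; ring
    rw [this]
    apply not_congr
    constructor
    · intro h
      exact ι.injective (mul_right_cancel₀ (pow_ne_zero 3 hu) h)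
    · intro h
      rw [← h]
  rw [e1, e2, e3]

omit [DecidableEq F1] [DecidableEq F2] in
lemma negY_eq (x y : F1) : (ShK a' b').toAffine.negY (ι x * u ^ 2) (ι y * u ^ 3) =
    ι ((ShK a b).toAffine.negY x y) * u ^ 3 := by
  simp only [Affine.negY, ShK, zero_mul, sub_zero, map_neg]
  ring

include hu ha in
lemma slope_eq (x₁ x₂ y₁ y₂ : F1) :
    (ShK a' b').toAffine.slope (ι x₁ * u ^ 2) (ι x₂ * u ^ 2) (ι y₁ * u ^ 3) (ι y₂ * u ^ 3) =
      ι ((ShK a b).toAffine.slope x₁ x₂ y₁ y₂) * u := by
  have hu3 : u ^ 3 ≠ 0 := pow_ne_zero _ hu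
  have hu2 : u ^ 2 ≠ 0 := pow_ne_zero _ hu
  by_cases hx : x₁ = x₂
  · by_cases hy : y₁ = (ShK a b).toAffine.negY x₂ y₂
    · rw [Affine.slope_of_Y_eq hx hy, Affine.slope_of_Y_eq (by rw [hx])
        (by rw [negY_eq (a := a) (b := b), hy]), map_zero, zero_mul]
    · have hy' : ι y₁ * u ^ 3 ≠ (ShK a' b').toAffine.negY (ι x₂ * u ^ 2) (ι y₂ * u ^ 3) := by
        rw [negY_eq (a := a) (b := b)]
        exact fun h => hy (ι.injective (mul_right_cancel₀ hu3 h))
      rw [Affine.slope_of_Y_ne hx hy, Affine.slope_of_Y_ne (by rw [hx]) hy',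
        negY_eq (a := a) (b := b)]
      simp only [ShK, zero_mul, mul_zero, add_zero, sub_zero]
      rw [ha, map_div₀, map_add, map_mul, map_pow, map_sub, map_ofNat]
      have e1 : 3 * (ι x₁ * u ^ 2) ^ 2 + ι a * u ^ 4 = (3 * (ι x₁) ^ 2 + ι a) * u * u ^ 3 := by ring
      rw [e1, ← sub_mul, mul_div_mul_right _ _ hu3]
      ring
  · have hx' : ι x₁ * u ^ 2 ≠ ι x₂ * u ^ 2 :=
      fun h => hx (ι.injective (mul_right_cancel₀ hu2 h))
    rw [Affine.slope_of_X_ne hx, Affine.slope_of_X_ne hx', map_div₀, map_sub, map_sub]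
    have e1 : ι y₁ * u ^ 3 - ι y₂ * u ^ 3 = ((ι y₁ - ι y₂) * u) * u ^ 2 := by ring
    rw [e1, ← sub_mul, mul_div_mul_right _ _ hu2]
    ring

omit [DecidableEq F1] [DecidableEq F2] in
lemma addX_eq (x₁ x₂ l : F1) :
    (ShK a' b').toAffine.addX (ι x₁ * u ^ 2) (ι x₂ * u ^ 2) (ι l * u) =
      ι ((ShK a b).toAffine.addX x₁ x₂ l) * u ^ 2 := by
  simp only [Affine.addX, ShK, zero_mul, add_zero, sub_zero, map_sub, map_pow]
  ring

omit [DecidableEq F1] [DecidableEq F2] in
lemma addY_eq (x₁ x₂ y₁ l : F1) :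
    (ShK a' b').toAffine.addY (ι x₁ * u ^ 2) (ι x₂ * u ^ 2) (ι y₁ * u ^ 3) (ι l * u) =
      ι ((ShK a b).toAffine.addY x₁ x₂ y₁ l) * u ^ 3 := by
  simp only [Affine.addY, Affine.negAddY, Affine.negY, Affine.addX, ShK, zero_mul, add_zero,
    sub_zero, map_sub, map_pow, map_neg, map_add, map_mul]
  ring

/-- the map on points -/
def tF : (ShK a b).toAffine.Point → (ShK a' b').toAffine.Point
  | 0 => 0
  | .some x y h => .some (ι x * u ^ 2) (ι y * u ^ 3) ((ns_iff ι hu ha hb x y).2 h)

omit [DecidableEq F1] [DecidableEq F2] in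
lemma tF_zero : tF ι hu ha hb 0 = 0 := rfl

omit [DecidableEq F1] [DecidableEq F2] in
lemma tF_some (x y : F1) (h : (ShK a b).toAffine.Nonsingular x y) :
    tF ι hu ha hb (.some x y h) =
      .some (ι x * u ^ 2) (ι y * u ^ 3) ((ns_iff ι hu ha hb x y).2 h) := rfl

lemma tF_add (P Q : (ShK a b).toAffine.Point) :
    tF ι hu ha hb (P + Q) = tF ι hu ha hb P + tF ι hu ha hb Q := by
  have hu3 : u ^ 3 ≠ 0 := pow_ne_zero _ hu
  have hu2 : u ^ 2 ≠ 0 := pow_ne_zero _ hu
  match P, Q with
  | 0, Q => rw [zero_add, tF_zero, zero_add]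
  | .some x y h, 0 => rw [add_zero, tF_zero, add_zero]
  | .some x₁ y₁ h₁, .some x₂ y₂ h₂ =>
    rw [tF_some, tF_some]
    by_cases hxy : x₁ = x₂ ∧ y₁ = (ShK a b).toAffine.negY x₂ y₂
    · rw [Affine.Point.add_of_Y_eq hxy.1 hxy.2,
        Affine.Point.add_of_Y_eq (by rw [hxy.1]) (by rw [hxy.2, negY_eq (a := a) (b := b)]),
        tF_zero]
    · have hxy' : ¬ (ι x₁ * u ^ 2 = ι x₂ * u ^ 2 ∧
          ι y₁ * u ^ 3 = (ShK a' b').toAffine.negY (ι x₂ * u ^ 2) (ι y₂ * u ^ 3)) := by
        rintro ⟨q1, q2⟩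
        apply hxy
        refine ⟨ι.injective (mul_right_cancel₀ hu2 q1), ?_⟩
        rw [negY_eq (a := a) (b := b)] at q2
        exact ι.injective (mul_right_cancel₀ hu3 q2)
      rw [Affine.Point.add_some hxy, Affine.Point.add_some hxy', tF_some]
      rw [Affine.Point.some.injEq, slope_eq ι hu ha, addX_eq (a := a) (b := b),
        addY_eq (a := a) (b := b)]
      exact ⟨rfl, rfl⟩

/-- the homomorphism -/
def tH : (ShK a b).toAffine.Point →+ (ShK a' b').toAffine.Point :=
  ⟨⟨tF ι hu ha hb, tF_zero ι hu ha hb⟩, tF_add ι hu ha hb⟩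

lemma tH_some (x y : F1) (h : (ShK a b).toAffine.Nonsingular x y) :
    tH ι hu ha hb (.some x y h) =
      .some (ι x * u ^ 2) (ι y * u ^ 3) ((ns_iff ι hu ha hb x y).2 h) := rfl

/-- a point whose coordinates have the right form is in the image -/
lemma mem_range (X Y : F2) (h : (ShK a' b').toAffine.Nonsingular X Y) (x y : F1)
    (hX : X = ι x * u ^ 2) (hY : Y = ι y * u ^ 3) :
    ∃ P, tH ι hu ha hb P = .some X Y h := by
  subst hX hY
  exact ⟨.some x y ((ns_iff ι hu ha hb x y).1 h), rfl⟩

end tmap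

/-! ### Ranks -/

lemma rank_two {G H1 H2 : Type} [AddCommGroup G] [AddCommGroup H1] [AddCommGroup H2]
    (σ : G →+ G) (f1 : H1 →+ G) (f2 : H2 →+ G) (hσ : ∀ P, σ (σ P) = P)
    (h1 : ∀ P, σ P = P → ∃ Q, f1 Q = P) (h2 : ∀ P, σ P = -P → ∃ Q, f2 Q = P) :
    Module.rank ℤ G ≤ Module.rank ℤ H1 + Module.rank ℤ H2 := by
  set g : G →ₗ[ℤ] G := LinearMap.id + σ.toIntLinearMap with hg
  rw [← LinearMap.rank_range_add_rank_ker g]
  apply add_le_add
  · refine (Submodule.rank_mono (t := LinearMap.range f1.toIntLinearMap) ?_).trans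
      (rank_range_le _)
    rintro _ ⟨P, rfl⟩
    have hP : σ (P + σ P) = P + σ P := by
      rw [map_add, hσ, add_comm]
    obtain ⟨Q, hQ⟩ := h1 _ hP
    exact ⟨Q, by simpa [hg] using hQ⟩
  · refine (Submodule.rank_mono (t := LinearMap.range f2.toIntLinearMap) ?_).trans
      (rank_range_le _)
    intro P hP
    rw [LinearMap.mem_ker] at hP
    have hP' : σ P = -P := by
      have : P + σ P = 0 := by simpa [hg] using hP
      exact (neg_eq_of_add_eq_zero_right this).symm
    obtain ⟨Q, hQ⟩ := h2 _ hP'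
    exact ⟨Q, by simpa using hQ⟩

lemma rank_surj {G H1 : Type} [AddCommGroup G] [AddCommGroup H1]
    (f1 : H1 →+ G) (h1 : ∀ P, ∃ Q, f1 Q = P) :
    Module.rank ℤ G ≤ Module.rank ℤ H1 :=
  LinearMap.rank_le_of_surjective f1.toIntLinearMap (fun P => h1 P)

/-! ### Quadratic extensions -/

section quad

variable {K L : Type} [Field K] [Field L] [Algebra K L] {x : L} {d : K}

lemma decomp (hx : x ^ 2 = algebraMap K L d) (htop : IntermediateField.adjoin K {x} = ⊤) (z : L) :
    ∃ a b : K, z = algebraMap K L a + algebraMap K L b * x := by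
  have hint : IsIntegral K x := by
    refine ⟨Polynomial.X ^ 2 - Polynomial.C d, Polynomial.monic_X_pow_sub_C d (by norm_num), ?_⟩
    simp [hx]
  have h1 : Algebra.adjoin K {x} = ⊤ := by
    rw [← IntermediateField.adjoin_simple_toSubalgebra_of_isAlgebraic hint.isAlgebraic, htop]
    rfl
  have hz : z ∈ Algebra.adjoin K {x} := by rw [h1]; trivial
  induction hz using Algebra.adjoin_induction with
  | mem y hy =>
    rw [Set.mem_singleton_iff] at hy
    exact ⟨0, 1, by rw [hy]; simp⟩
  | algebraMap r => exact ⟨r, 0, by simp⟩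
  | add y w _ _ ihy ihw =>
    obtain ⟨a, b, h⟩ := ihy
    obtain ⟨a', b', h'⟩ := ihw
    exact ⟨a + a', b + b', by rw [h, h']; simp only [map_add]; ring⟩
  | mul y w _ _ ihy ihw =>
    obtain ⟨a, b, h⟩ := ihy
    obtain ⟨a', b', h'⟩ := ihw
    refine ⟨a * a' + b * b' * d, a * b' + a' * b, ?_⟩
    rw [h, h']
    simp only [map_add, map_mul]
    rw [← hx]
    ring

lemma uniq (hxK : x ∉ Set.range (algebraMap K L)) (a b a' b' : K)
    (h : algebraMap K L a + algebraMap K L b * x = algebraMap K L a' + algebraMap K L b' * x) :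
    a = a' ∧ b = b' := by
  have hb : b = b' := by
    by_contra hne
    apply hxK
    refine ⟨(a' - a) / (b - b'), ?_⟩
    have h1 : algebraMap K L (b - b') ≠ 0 := by
      rw [Ne, map_eq_zero]
      exact sub_ne_zero.mpr hne
    rw [map_div₀, div_eq_iff h1, map_sub, map_sub]
    linear_combination (-1 : L) * h
  subst hb
  refine ⟨?_, rfl⟩
  have h2 : algebraMap K L a = algebraMap K L a' := by linear_combination h
  exact (algebraMap K L).injective h2

lemma exists_conj (hx : x ^ 2 = algebraMap K L d) (htop : IntermediateField.adjoin K {x} = ⊤)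
    (hxK : x ∉ Set.range (algebraMap K L)) :
    ∃ σ : L →+* L, ∀ a b : K, σ (algebraMap K L a + algebraMap K L b * x) =
      algebraMap K L a - algebraMap K L b * x := by
  choose ca cb hc using decomp hx htop
  set f : L → L := fun z => algebraMap K L (ca z) - algebraMap K L (cb z) * x with hf
  have hspec : ∀ a b : K, f (algebraMap K L a + algebraMap K L b * x) =
      algebraMap K L a - algebraMap K L b * x := by
    intro a b
    obtain ⟨h1, h2⟩ := uniq hxK _ _ _ _ (hc (algebraMap K L a + algebraMap K L b * x))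
    rw [hf]
    simp only
    rw [← h1, ← h2]
  refine ⟨⟨⟨⟨f, ?_⟩, ?_⟩, ?_, ?_⟩, hspec⟩
  · have h := hspec 1 0
    simpa using h
  · intro z w
    rw [hc z, hc w]
    have e : (algebraMap K L (ca z) + algebraMap K L (cb z) * x) *
        (algebraMap K L (ca w) + algebraMap K L (cb w) * x) =
        algebraMap K L (ca z * ca w + cb z * cb w * d) +
          algebraMap K L (ca z * cb w + ca w * cb z) * x := by
      simp only [map_add, map_mul]
      rw [← hx]
      ring
    change f _ = f _ * f _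
    rw [e, hspec, hspec, hspec]
    simp only [map_add, map_mul]
    rw [← hx]
    ring
  · change f 0 = 0
    have h := hspec 0 0
    simpa using h
  · intro z w
    change f _ = f _ + f _
    rw [hc z, hc w]
    have e : (algebraMap K L (ca z) + algebraMap K L (cb z) * x) +
        (algebraMap K L (ca w) + algebraMap K L (cb w) * x) =
        algebraMap K L (ca z + ca w) + algebraMap K L (cb z + cb w) * x := by
      simp only [map_add]
      ring
    rw [e, hspec, hspec, hspec]
    simp only [map_add]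
    ring

end quad

open Classical in
theorem mq1 : MQ1 := by
  intro K L _ _ _ _ x d hx htop A B _
  by_cases hxK : x ∈ Set.range (algebraMap K L)
  · obtain ⟨x0, hx0⟩ := hxK
    refine le_trans ?_ (self_le_add_right _ _)
    have ha : algebraMap K L A = algebraMap K L A * (1 : L) ^ 4 := by ring
    have hb : algebraMap K L B = algebraMap K L B * (1 : L) ^ 6 := by ring
    apply rank_surj (tH (algebraMap K L) one_ne_zero ha hb)
    intro P
    match P with
    | 0 => exact ⟨0, map_zero _⟩
    | .some X Y h =>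
      obtain ⟨a1, b1, h1⟩ := decomp hx htop X
      obtain ⟨a2, b2, h2⟩ := decomp hx htop Y
      exact mem_range (algebraMap K L) one_ne_zero ha hb X Y h (a1 + b1 * x0) (a2 + b2 * x0)
        (by rw [h1, ← hx0]; simp) (by rw [h2, ← hx0]; simp)
  · obtain ⟨σ, hσ⟩ := exists_conj hx htop hxK
    have hx0 : x ≠ 0 := fun h => hxK ⟨0, by rw [map_zero, h]⟩
    have hσK : ∀ c : K, σ (algebraMap K L c) = algebraMap K L c := by
      intro c
      have := hσ c 0
      simpa using this
    have hσσ : ∀ z, σ (σ z) = z := by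
      intro z
      obtain ⟨a, b, rfl⟩ := decomp hx htop z
      rw [hσ]
      have e : algebraMap K L a - algebraMap K L b * x =
        algebraMap K L a + algebraMap K L (-b) * x := by rw [map_neg]; ring
      rw [e, hσ, map_neg]
      ring
    have h2L : ∀ c : K, algebraMap K L c + algebraMap K L c = 0 → c = 0 := by
      intro c hc
      rw [← map_add, map_eq_zero] at hc
      have : (2 : K) * c = 0 := by linear_combination hc
      exact (mul_eq_zero.mp this).resolve_left two_ne_zero
    have hfix : ∀ z, σ z = z → ∃ a : K, z = algebraMap K L a := by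
      intro z hz
      obtain ⟨a, b, rfl⟩ := decomp hx htop z
      rw [hσ] at hz
      have h1 : (algebraMap K L b + algebraMap K L b) * x = 0 := by linear_combination -hz
      have h2 := h2L b ((mul_eq_zero.mp h1).resolve_right hx0)
      exact ⟨a, by rw [h2]; simp⟩
    have hanti : ∀ z, σ z = -z → ∃ b : K, z = algebraMap K L b * x := by
      intro z hz
      obtain ⟨a, b, rfl⟩ := decomp hx htop z
      rw [hσ] at hz
      have h1 : algebraMap K L a + algebraMap K L a = 0 := by linear_combination hz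
      have h2 := h2L a h1
      exact ⟨b, by rw [h2]; simp⟩
    have ha : algebraMap K L A = algebraMap K L A * (1 : L) ^ 4 := by ring
    have hb : algebraMap K L B = algebraMap K L B * (1 : L) ^ 6 := by ring
    have hsa : algebraMap K L A = σ (algebraMap K L A) * (1 : L) ^ 4 := by rw [hσK]; ring
    have hsb : algebraMap K L B = σ (algebraMap K L B) * (1 : L) ^ 6 := by rw [hσK]; ring
    have hta : algebraMap K L A = algebraMap K L (d ^ 2 * A) * (x⁻¹) ^ 4 := by
      rw [map_mul, map_pow, ← hx]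
      field_simp
    have htb : algebraMap K L B = algebraMap K L (d ^ 3 * B) * (x⁻¹) ^ 6 := by
      rw [map_mul, map_pow, ← hx]
      field_simp
    apply rank_two (tH σ one_ne_zero hsa hsb) (tH (algebraMap K L) one_ne_zero ha hb)
      (tH (algebraMap K L) (inv_ne_zero hx0) hta htb)
    · intro P
      match P with
      | 0 => rw [map_zero, map_zero]
      | .some X Y h =>
        rw [tH_some, tH_some, Affine.Point.some.injEq]
        simp only [one_pow, mul_one]
        exact ⟨hσσ X, hσσ Y⟩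
    · intro P hP
      match P with
      | 0 => exact ⟨0, map_zero _⟩
      | .some X Y h =>
        rw [tH_some, Affine.Point.some.injEq] at hP
        simp only [one_pow, mul_one] at hP
        obtain ⟨a, rfl⟩ := hfix X hP.1
        obtain ⟨b, rfl⟩ := hfix Y hP.2
        exact mem_range (algebraMap K L) one_ne_zero ha hb _ _ h a b (by simp) (by simp)
    · intro P hP
      match P with
      | 0 => exact ⟨0, map_zero _⟩
      | .some X Y h =>
        rw [tH_some, Affine.Point.neg_some, Affine.Point.some.injEq] at hP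
        simp only [one_pow, mul_one, Affine.negY, ShK, zero_mul, sub_zero] at hP
        obtain ⟨a, rfl⟩ := hfix X hP.1
        obtain ⟨b, rfl⟩ := hanti Y hP.2
        refine mem_range (algebraMap K L) (inv_ne_zero hx0) hta htb _ _ h (d * a) (d ^ 2 * b) ?_ ?_
        · rw [map_mul, ← hx]
          field_simp
        · rw [map_mul, map_pow, ← hx]
          field_simp

end Pool.Agent.W612.RS
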